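import Pool.Agent.H37.CA.All

/-!
# Central values of the unitary characters of the Galois groups of ray class fields (MP_347b49_nt)

Let `F` be a CM field which is Galois over `ℚ`, `d = [F : ℚ]` and `ε > 0`. For all large prime
numbers `q` let `L` be the ray class field of `F` modulo `q` and `G = Gal(L/ℚ)`. At least
`(1 / (d + 1) - ε) |Irr(G)|` of the irreducible characters `χ` of `G` are unitary, have degree `d`,
and satisfy statement 2: `L(s, χ, L/ℚ)` is entire and `L(1/2, χ, L/ℚ) ≠ 0`. For imaginary quadratic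
fields `F` this is one third of all irreducible characters of `G`.

Idea. `L(s, χ)` is the `L`-function of a primitive ray class character `ψ` of `F` of conductor `(q)`.
There are about `q^(d/2 + 1)` of them, because the units of a CM field have only about `q^(d/2 - 1)`
residue classes modulo `q`. The first and the second moment of the central values with a mollifier
of length `q^(1 - ε)` are computed with an approximate functional equation. Off the diagonal a pair of
coprime ideals `I`, `J` contributes if `I` and `J` are equivalent modulo `q`. If `N(I) N(J)` is less than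
`c q^d`, then `I` and `J` come from ideals of the maximal real subfield: otherwise an element
`α - ζ conj(α)` would be divisible by `q` and too small. These real pairs are excluded by a congruence
between their norms, apart from few pairs, whose contribution is small by the cancellation in
Selberg's quadratic form. The long pairs are counted by a lattice point argument with units which
balance the coordinates. The characters which are equal to a conjugate, or whose inverse is a conjugate,
are few (fixed points modulo `q`); the others induce irreducible unitary characters.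

Lean proof: helper37 (Pool/Agent/H37/CV, Pool/Agent/H37/CA) with modules by helper1, helper3, helper8,
helper19, helper22, helper25, helper27, helper33, helper34, helper42, helper45, helper46, helper49,
helper50, helper51, helper56, helper59, helper66, helper69, helper81, helper86, helper94, helper96,
helper97; proof checked on paper by helper95; Hecke's functional equations, Brauer's theorem and
Artin reciprocity: Pool/Agent/H25/HK, Pool/Agent/H28/RC, Pool/Agent/H95/RQ and the modules named there.
-/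

set_option autoImplicit false

open NumberField

namespace Pool.Agent.Results.MP_347b49_nt.UnitaryCharacters

open Pool.Agent.H25.DL

/-- the irreducible complex characters of the group `G` -/
def Irr (G : Type) [Group G] : Set (G → ℂ) :=
  {χ | ∃ (V : Type) (_ : AddCommGroup V) (_ : Module ℂ V) (_ : FiniteDimensional ℂ V)
    (ρ : Representation ℂ G V), ρ.IsIrreducible ∧ χ = ρ.character}

/-- the Frobenius-Schur indicator `1/|G| ∑ χ(g²)`; irreducible characters with the indicator `0` are
called unitary -/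
noncomputable def indicator {G : Type} [Group G] (χ : G → ℂ) : ℂ :=
  (Nat.card G : ℂ)⁻¹ * ∑ᶠ g : G, χ (g ^ 2)

/-- `g` is a Frobenius element of `L/F` at the prime ideal `P` of `F` -/
def IsFrobenius {F L : Type} [Field F] [NumberField F] [Field L] [NumberField L] [Algebra F L]
    (P : Ideal (𝓞 F)) (g : L ≃ₐ[F] L) : Prop :=
  ∃ Q : Ideal (𝓞 L), Q.IsPrime ∧ Q.under (𝓞 F) = P ∧
    ∀ x : 𝓞 L, g • x - x ^ (Ideal.absNorm P) ∈ Q

/-- `L` is the ray class field of `F` modulo `m` (`F` is totally complex below): there is a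
multiplicative map `θ` of the ideals of `F` prime to `m` onto the Galois group of `L/F` which sends
every prime ideal to its Frobenius element (unique: the prime ideal is unramified) and whose kernel
consists of the principal ideals with a generator congruent to `1` modulo `m`. -/
def IsRayClassField (F L : Type) [Field F] [NumberField F] [Field L] [NumberField L]
    [Algebra F L] (m : Ideal (𝓞 F)) : Prop :=
  ∃ θ : Ideal (𝓞 F) → (L ≃ₐ[F] L),
    (∀ I J : Ideal (𝓞 F), I ≠ ⊥ → J ≠ ⊥ → I ⊔ m = ⊤ → J ⊔ m = ⊤ → θ (I * J) = θ I * θ J) ∧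
    (∀ (P : Ideal (𝓞 F)) (g : L ≃ₐ[F] L), P ⊔ m = ⊤ → IsFrobenius P g → g = θ P) ∧
    (∀ g : L ≃ₐ[F] L, ∃ I : Ideal (𝓞 F), I ≠ ⊥ ∧ I ⊔ m = ⊤ ∧ θ I = g) ∧
    ∀ I : Ideal (𝓞 F), I ≠ ⊥ → I ⊔ m = ⊤ →
      (θ I = 1 ↔ ∃ a : 𝓞 F, a - 1 ∈ m ∧ I = Ideal.span {a})

/-- the choice of a prime ideal of `L` above every prime number `p` and of a Frobenius element -/
structure Frobenii (L : Type) [Field L] [NumberField L] where
  P : Nat.Primes → Ideal (𝓞 L)
  P_prime : ∀ p, (P p).IsPrime
  P_mem : ∀ p : Nat.Primes, ((p : ℕ) : 𝓞 L) ∈ P p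
  Fr : Nat.Primes → (L ≃ₐ[ℚ] L)
  Fr_spec : ∀ (p : Nat.Primes) (x : 𝓞 L), Fr p • x - x ^ (p : ℕ) ∈ P p

/-- the representation `ρ` of the Galois group of `L/ℚ` with the Frobenius elements of `D` -/
noncomputable def Frobenii.rep {L : Type} [Field L] [NumberField L] [IsGalois ℚ L]
    (D : Frobenii L) (V : Type) [AddCommGroup V] [Module ℂ V] [FiniteDimensional ℂ V]
    (ρ : Representation ℂ (L ≃ₐ[ℚ] L) V) : ArtinRep where
  K := L
  fK := inferInstance
  nK := inferInstance
  gK := inferInstance
  V := V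
  aV := inferInstance
  mV := inferInstance
  dV := inferInstance
  rho := ρ
  P := D.P
  P_prime := D.P_prime
  P_mem := D.P_mem
  Fr := D.Fr
  Fr_spec := D.Fr_spec

/-- `Λ` is entire and the Artin `L`-function of `R`: it is given by the Euler product
`∏_p det (1 - p^{-s} Frob_p | V^{I_p})^{-1}` for `Re s > 1`. -/
def IsEntireArtinLFunction (R : ArtinRep) (Λ : ℂ → ℂ) : Prop :=
  Differentiable ℂ Λ ∧ ∀ s : ℂ, 1 < s.re → HasProd (fun p => R.euler p s) (Λ s)

/-- the Artin `L`-function of `χ` (of every representation with the character `χ`) is entire and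
does not vanish at `1/2` -/
def NonVanishing {L : Type} [Field L] [NumberField L] [IsGalois ℚ L]
    (χ : (L ≃ₐ[ℚ] L) → ℂ) : Prop :=
  ∀ (D : Frobenii L) (V : Type) [AddCommGroup V] [Module ℂ V] [FiniteDimensional ℂ V]
    (ρ : Representation ℂ (L ≃ₐ[ℚ] L) V), χ = ρ.character →
    ∃ Λ : ℂ → ℂ, IsEntireArtinLFunction (D.rep V ρ) Λ ∧ Λ (1 / 2) ≠ 0

theorem result (F : Type) [Field F] [NumberField F] [IsCMField F] [IsGalois ℚ F] (ε : ℝ)
    (hε : 0 < ε) :
    ∃ q₀ : ℕ, ∀ q : ℕ, q.Prime → q₀ ≤ q →
      ∀ (L : Type) [Field L] [NumberField L] [Algebra F L] [IsGalois ℚ L],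
        IsRayClassField F L (Ideal.span {(q : 𝓞 F)}) →
          (Irr (L ≃ₐ[ℚ] L)).Finite ∧
            (1 / ((Module.finrank ℚ F : ℝ) + 1) - ε) * (Irr (L ≃ₐ[ℚ] L)).ncard ≤
              ({χ | χ ∈ Irr (L ≃ₐ[ℚ] L) ∧ χ 1 = Module.finrank ℚ F ∧ indicator χ = 0 ∧
                NonVanishing χ}.ncard : ℝ) := by
  obtain ⟨q₀, h⟩ := Pool.Agent.H37.CA.FI3_proved F ε hε
  refine ⟨q₀, fun q hq hqq L _ _ _ _ hL => ?_⟩
  obtain ⟨h1, h2⟩ := h q hq hqq L hL
  refine ⟨h1, h2.trans ?_⟩
  have h3 : ({f | f ∈ Pool.Agent.H37.CA.Irr (L ≃ₐ[ℚ] L) ∧ f 1 = Module.finrank ℚ F ∧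
      Pool.Agent.H37.CA.nu f = 0 ∧ ∀ D : Pool.Agent.H37.CA.Frb L,
        Pool.Agent.H37.CA.NV D f} : Set ((L ≃ₐ[ℚ] L) → ℂ)) ⊆
      {χ | χ ∈ Irr (L ≃ₐ[ℚ] L) ∧ χ 1 = Module.finrank ℚ F ∧ indicator χ = 0 ∧
        NonVanishing χ} := by
    rintro χ ⟨hχ1, hχ2, hχ3, hχ4⟩
    refine ⟨hχ1, hχ2, hχ3, fun D V _ _ _ ρ hρ => ?_⟩
    obtain ⟨Λ, hΛ1, hΛ2, hΛ3⟩ := hχ4 ⟨D.P, D.P_prime, D.P_mem, D.Fr, D.Fr_spec⟩ V ρ hρ
    exact ⟨Λ, ⟨hΛ1, hΛ2⟩, hΛ3⟩
  exact_mod_cast Set.ncard_le_ncard h3 (Set.Finite.subset h1 fun χ hχ => hχ.1)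

end Pool.Agent.Results.MP_347b49_nt.UnitaryCharacters
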